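import Pool.Agent.X176.FJ.Supp
import Pool.Agent.Y812.SS.Wr

/-!
# Verbal subgroups and relatively free groups in classes with the closure properties of the
Farrell–Jones groups
-/

set_option autoImplicit false

namespace Pool.Agent.X265.Ver

open Pool.Agent.Y110.FJ Pool.Agent.X176.FJ
open Pool.Agent.Y462.SS (Closed)
open scoped Pointwise

/-! ## verbal subgroups -/

/-- the verbal subgroup of `G` given by the words in `W`: it is generated by all values of the words of
`W` in `G` -/
def verb (W : Set (FreeGroup ℕ)) (G : Type) [Group G] : Subgroup G :=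
  Subgroup.closure {g | ∃ w ∈ W, ∃ φ : FreeGroup ℕ →* G, φ w = g}

variable (W : Set (FreeGroup ℕ))

theorem verb_map {G H : Type} [Group G] [Group H] (f : G →* H) {g : G} (hg : g ∈ verb W G) :
    f g ∈ verb W H := by
  have h1 : verb W G ≤ (verb W H).comap f := by
    rw [verb, Subgroup.closure_le]
    rintro _ ⟨w, hw, φ, rfl⟩
    exact Subgroup.subset_closure ⟨w, hw, f.comp φ, rfl⟩
  exact h1 hg

instance verb_normal (G : Type) [Group G] : (verb W G).Normal := by
  constructor
  intro n hn g
  exact verb_map W (MulAut.conj g).toMonoidHom hn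

/-- the verbal subgroup of a subgroup, as a subgroup of the whole group -/
def verbIn {G : Type} [Group G] (R : Subgroup G) : Subgroup G := (verb W R).map R.subtype

theorem mem_verbIn {G : Type} [Group G] {R : Subgroup G} {g : G} :
    g ∈ verbIn W R ↔ ∃ h : g ∈ R, (⟨g, h⟩ : R) ∈ verb W R := by
  constructor
  · rintro ⟨r, hr, rfl⟩
    exact ⟨r.2, hr⟩
  · rintro ⟨h, hr⟩
    exact ⟨⟨g, h⟩, hr, rfl⟩

instance verbIn_normal {G : Type} [Group G] (R : Subgroup G) [R.Normal] :
    (verbIn W R).Normal := by
  constructor
  intro n hn g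
  obtain ⟨h, hr⟩ := (mem_verbIn W).1 hn
  refine (mem_verbIn W).2 ⟨Subgroup.Normal.conj_mem inferInstance n h g, ?_⟩
  exact verb_map W (MulAut.conjNormal g : MulAut R).toMonoidHom hr

/-! ## relatively free groups -/

/-- the relatively free group on `α` -/
abbrev RF (α : Type) : Type := FreeGroup α ⧸ verb W (FreeGroup α)

/-- homomorphisms of free groups induce homomorphisms of relatively free groups -/
def rmap {α β : Type} (f : FreeGroup α →* FreeGroup β) : RF W α →* RF W β :=
  QuotientGroup.map _ _ f fun _ hg => verb_map W f hg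

theorem rmap_mk {α β : Type} (f : FreeGroup α →* FreeGroup β) (x : FreeGroup α) :
    rmap W f (QuotientGroup.mk x) = QuotientGroup.mk (f x) := rfl

theorem rmap_comp {α β γ : Type} (f : FreeGroup α →* FreeGroup β)
    (g : FreeGroup β →* FreeGroup γ) (x : RF W α) :
    rmap W g (rmap W f x) = rmap W (g.comp f) x := by
  obtain ⟨y, rfl⟩ := QuotientGroup.mk_surjective x
  rfl

theorem rmap_id {α : Type} (x : RF W α) : rmap W (MonoidHom.id (FreeGroup α)) x = x := by
  obtain ⟨y, rfl⟩ := QuotientGroup.mk_surjective x
  rfl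

/-- kill the generators outside of `S` -/
noncomputable def ret {α : Type} (S : Set α) : FreeGroup α →* FreeGroup α := by
  classical
  exact FreeGroup.lift fun a => if a ∈ S then FreeGroup.of a else 1

theorem ret_of_mem {α : Type} {S : Set α} {a : α} (h : a ∈ S) :
    ret S (FreeGroup.of a) = FreeGroup.of a := by
  rw [ret, FreeGroup.lift_apply_of, if_pos h]

theorem ret_of_notMem {α : Type} {S : Set α} {a : α} (h : a ∉ S) :
    ret S (FreeGroup.of a) = 1 := by
  rw [ret, FreeGroup.lift_apply_of, if_neg h]

theorem ret_ret {α : Type} (S T : Set α) (x : FreeGroup α) :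
    ret S (ret T x) = ret (S ∩ T) x := by
  have h1 : (ret S).comp (ret T) = ret (S ∩ T) := by
    apply FreeGroup.ext_hom
    intro a
    rw [MonoidHom.comp_apply]
    by_cases hT : a ∈ T
    · rw [ret_of_mem hT]
      by_cases hS : a ∈ S
      · rw [ret_of_mem hS, ret_of_mem (Set.mem_inter hS hT)]
      · rw [ret_of_notMem hS, ret_of_notMem fun h => hS h.1]
    · rw [ret_of_notMem hT, map_one, ret_of_notMem fun h => hT h.2]
  rw [← h1]
  rfl

theorem exists_ret {α : Type} (x : FreeGroup α) : ∃ S : Set α, S.Finite ∧ ret S x = x := by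
  induction x using FreeGroup.induction_on with
  | C1 => exact ⟨∅, Set.finite_empty, map_one _⟩
  | of a => exact ⟨{a}, Set.finite_singleton a, ret_of_mem rfl⟩
  | inv_of a _ =>
    exact ⟨{a}, Set.finite_singleton a, by rw [map_inv, ret_of_mem (Set.mem_singleton a)]⟩
  | mul x y hx hy =>
    obtain ⟨S, hS, h1⟩ := hx
    obtain ⟨T, hT, h2⟩ := hy
    refine ⟨S ∪ T, hS.union hT, ?_⟩
    have h3 : ret (S ∪ T) x = x := by
      conv_lhs => rw [← h1, ret_ret, Set.inter_eq_right.2 Set.subset_union_left]
      exact h1
    have h4 : ret (S ∪ T) y = y := by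
      conv_lhs => rw [← h2, ret_ret, Set.inter_eq_right.2 Set.subset_union_right]
      exact h2
    rw [map_mul, h3, h4]

/-- relatively free groups of finite rank -/
theorem c_RF_finite {C : ∀ (G : Type) [Group G], Prop} (hC : Closed C) (h : C (RF W ℕ))
    (α : Type) [Finite α] : C (RF W α) := by
  classical
  obtain ⟨n, ⟨e⟩⟩ := Finite.exists_equiv_fin α
  let i : α → ℕ := fun a => (e a : ℕ)
  let r : FreeGroup ℕ →* FreeGroup α := FreeGroup.lift fun k =>
    if hk : k < n then FreeGroup.of (e.symm ⟨k, hk⟩) else 1
  have h1 : r.comp (FreeGroup.map i) = MonoidHom.id _ := by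
    apply FreeGroup.ext_hom
    intro a
    rw [MonoidHom.comp_apply, FreeGroup.map.of, FreeGroup.lift_apply_of, dif_pos (e a).2]
    exact congrArg FreeGroup.of (e.symm_apply_apply a)
  refine hC.of_injective _ _ (rmap W (FreeGroup.map i)) ?_ h
  intro x y hxy
  have h2 := congrArg (rmap W r) hxy
  rwa [rmap_comp, rmap_comp, h1, rmap_id, rmap_id] at h2

/-- relatively free groups of any rank -/
theorem c_RF {C : ∀ (G : Type) [Group G], Prop} (hC : Closed C) (h : C (RF W ℕ)) (α : Type) :
    C (RF W α) := by
  classical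
  apply c_loc hC
  intro E hE
  -- a finite set of generators
  have h1 : ∀ x : RF W α, ∃ S : Set α, S.Finite ∧ rmap W (ret S) x = x := by
    intro x
    obtain ⟨y, rfl⟩ := QuotientGroup.mk_surjective x
    obtain ⟨S, hS, h2⟩ := exists_ret y
    exact ⟨S, hS, by rw [rmap_mk, h2]⟩
  choose S hS hSx using h1
  let T : Set α := ⋃ x ∈ E, S x
  have hT : T.Finite := hE.biUnion fun x _ => hS x
  have hTf : Finite T := hT
  let i : FreeGroup T →* FreeGroup α := FreeGroup.map Subtype.val
  let r : FreeGroup α →* FreeGroup T := FreeGroup.lift fun a =>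
    if ha : a ∈ T then FreeGroup.of (⟨a, ha⟩ : T) else 1
  have hri : i.comp r = ret T := by
    apply FreeGroup.ext_hom
    intro a
    rw [MonoidHom.comp_apply, FreeGroup.lift_apply_of]
    by_cases ha : a ∈ T
    · rw [dif_pos ha, ret_of_mem ha]
      exact FreeGroup.map.of
    · rw [dif_neg ha, ret_of_notMem ha, map_one]
  have hE' : ∀ x ∈ Subgroup.closure E, rmap W (ret T) x = x := by
    intro x hx
    have h2 : Subgroup.closure E ≤ MonoidHom.eqLocus (rmap W (ret T)) (MonoidHom.id _) := by
      rw [Subgroup.closure_le]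
      intro y hy
      change rmap W (ret T) y = y
      conv_lhs => rw [← hSx y, rmap_comp]
      have h3 : (ret T).comp (ret (S y)) = ret (S y) := by
        apply MonoidHom.ext
        intro z
        rw [MonoidHom.comp_apply, ret_ret,
          Set.inter_eq_right.2 (Set.subset_biUnion_of_mem (u := fun x => S x) hy)]
      rw [h3, hSx]
    exact h2 hx
  refine hC.of_injective _ _ ((rmap W r).comp (Subgroup.closure E).subtype) ?_
    (c_RF_finite W hC h T)
  intro x y hxy
  have h2 := congrArg (rmap W i) hxy
  change rmap W i (rmap W r x) = rmap W i (rmap W r y) at h2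
  rw [rmap_comp, rmap_comp, hri, hE' x x.2, hE' y y.2] at h2
  exact Subtype.ext h2

/-! ## actions by permutations of the generators -/

section sys

variable (Q V : Type) [Group Q] [MulAction Q V]

/-- the action on the free group -/
noncomputable def fAct (q : Q) : FreeGroup V →* FreeGroup V := FreeGroup.map fun v => q • v

theorem fAct_of (q : Q) (v : V) : fAct Q V q (FreeGroup.of v) = FreeGroup.of (q • v) :=
  FreeGroup.map.of

theorem fAct_mul (q r : Q) (x : FreeGroup V) : fAct Q V (q * r) x = fAct Q V q (fAct Q V r x) := by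
  have h1 : fAct Q V (q * r) = (fAct Q V q).comp (fAct Q V r) := by
    apply FreeGroup.ext_hom
    intro v
    rw [MonoidHom.comp_apply, fAct_of, fAct_of, fAct_of, mul_smul]
  rw [h1]
  rfl

theorem fAct_one (x : FreeGroup V) : fAct Q V 1 x = x := by
  have h1 : fAct Q V 1 = MonoidHom.id _ := by
    apply FreeGroup.ext_hom
    intro v
    rw [fAct_of, one_smul]
    rfl
  rw [h1]
  rfl

/-- the action on the relatively free group -/
noncomputable def rAct : Q →* MulAut (RF W V) where
  toFun q :=
    { toFun := rmap W (fAct Q V q)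
      invFun := rmap W (fAct Q V q⁻¹)
      left_inv := by
        intro x
        obtain ⟨y, rfl⟩ := QuotientGroup.mk_surjective x
        rw [rmap_mk, rmap_mk, ← fAct_mul, inv_mul_cancel, fAct_one]
      right_inv := by
        intro x
        obtain ⟨y, rfl⟩ := QuotientGroup.mk_surjective x
        rw [rmap_mk, rmap_mk, ← fAct_mul, mul_inv_cancel, fAct_one]
      map_mul' := map_mul _ }
  map_one' := by
    apply MulEquiv.ext
    intro x
    obtain ⟨y, rfl⟩ := QuotientGroup.mk_surjective x
    exact congrArg _ (fAct_one Q V y)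
  map_mul' q r := by
    apply MulEquiv.ext
    intro x
    obtain ⟨y, rfl⟩ := QuotientGroup.mk_surjective x
    exact congrArg _ (fAct_mul Q V q r y)

theorem rAct_apply (q : Q) (x : RF W V) : rAct W Q V q x = rmap W (fAct Q V q) x := rfl

/-- the system of retractions of a relatively free group -/
noncomputable def rsys : RSys Q (RF W V) V where
  φ := rAct W Q V
  e S := rmap W (ret S)
  inter S T n := by
    obtain ⟨y, rfl⟩ := QuotientGroup.mk_surjective n
    rw [rmap_mk, rmap_mk, rmap_mk, ret_ret]
  equivariant q S n := by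
    rw [rAct_apply, rAct_apply, rmap_comp, rmap_comp]
    have h1 : (fAct Q V q).comp (ret S) = (ret (q • S)).comp (fAct Q V q) := by
      apply FreeGroup.ext_hom
      intro v
      rw [MonoidHom.comp_apply, MonoidHom.comp_apply, fAct_of]
      by_cases hv : v ∈ S
      · rw [ret_of_mem hv, ret_of_mem (Set.smul_mem_smul_set hv), fAct_of]
      · rw [ret_of_notMem hv, map_one,
          ret_of_notMem (fun h => hv (Set.smul_mem_smul_set_iff.1 h))]
    rw [h1]
  finite n := by
    obtain ⟨y, rfl⟩ := QuotientGroup.mk_surjective n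
    obtain ⟨S, hS, h⟩ := exists_ret y
    exact ⟨S, hS, by rw [rmap_mk, h]⟩

variable {Q V} in
/-- an element which preserves a finite set has a positive power which fixes it pointwise -/
theorem exists_pow_fix (q : Q) (D : Set V) (hD : D.Finite) (h : q • D = D) :
    ∃ k : ℕ, 0 < k ∧ ∀ v ∈ D, q ^ k • v = v := by
  have hDf : Finite D := hD
  have hmem : ∀ v : D, q • (v : V) ∈ D := fun v => by
    have h1 : q • (v : V) ∈ q • D := Set.smul_mem_smul_set v.2
    rwa [h] at h1
  let g : D → D := fun v => ⟨q • (v : V), hmem v⟩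
  have hg : Function.Injective g := by
    intro a b hab
    exact Subtype.ext (MulAction.injective q (congrArg Subtype.val hab))
  let σ : Equiv.Perm D := Equiv.ofBijective g (Finite.injective_iff_bijective.1 hg)
  have hσ : ∀ (k : ℕ) (v : D), ((σ ^ k) v : V) = q ^ k • (v : V) := by
    intro k
    induction k with
    | zero => intro v; rw [pow_zero, pow_zero, one_smul]; rfl
    | succ k ih =>
      intro v
      rw [pow_succ, pow_succ, Equiv.Perm.mul_apply, ih, mul_smul]
      rfl
  refine ⟨orderOf σ, orderOf_pos σ, fun v hv => ?_⟩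
  rw [← hσ (orderOf σ) ⟨v, hv⟩, pow_orderOf_eq_one]
  rfl

theorem rsys_tame : (rsys W Q V).Tame := by
  intro q D hD h
  obtain ⟨k, hk, h1⟩ := exists_pow_fix q D hD h
  refine ⟨k, hk, 1, fun n => ?_⟩
  rw [one_mul, inv_one, mul_one]
  change rmap W (fAct Q V (q ^ k)) (rmap W (ret D) n) = rmap W (ret D) n
  rw [rmap_comp]
  have h2 : (fAct Q V (q ^ k)).comp (ret D) = ret D := by
    apply FreeGroup.ext_hom
    intro v
    rw [MonoidHom.comp_apply]
    by_cases hv : v ∈ D
    · rw [ret_of_mem hv, fAct_of, h1 v hv]
    · rw [ret_of_notMem hv, map_one]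
  rw [h2]

/-- semidirect products of relatively free groups with groups permuting the generators -/
theorem c_rsemi {C : ∀ (G : Type) [Group G], Prop} (hC : ClosedE C) (h : C (RF W ℕ)) (hQ : C Q) :
    C (RF W V ⋊[rAct W Q V] Q) :=
  supp hC (rsys W Q V) (rsys_tame W Q V) (c_RF W hC.base h V) hQ

end sys

end Pool.Agent.X265.Ver
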