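import Pool.Agent.X265.Ver.Base

/-!
# The Magnus–Shmelkin embedding for free products
-/

set_option autoImplicit false

namespace Pool.Agent.X265.Ver

open Pool.Agent.Y110.FJ Pool.Agent.X176.FJ
open Pool.Agent.Y462.SS (Closed)
open Monoid

/-- the free product of the free group on `X` and the groups `A i` -/
abbrev FrP (X : Type) {I : Type} (A : I → Type) [∀ i, Group (A i)] : Type :=
  Coprod (FreeGroup X) (CoprodI A)

/-- edges -/
structure Vt (Z Q : Type) where
  /-- the type of the edge -/
  z : Z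
  /-- the position of the edge -/
  q : Q

instance (Z Q : Type) [Group Q] : MulAction Q (Vt Z Q) where
  smul r v := ⟨v.z, r * v.q⟩
  one_smul v := by
    change (⟨v.z, 1 * v.q⟩ : Vt Z Q) = v
    rw [one_mul]
  mul_smul r s v := by
    change (⟨v.z, r * s * v.q⟩ : Vt Z Q) = ⟨v.z, r * (s * v.q)⟩
    rw [mul_assoc]

theorem smul_vt {Z Q : Type} [Group Q] (r : Q) (z : Z) (q : Q) :
    r • (⟨z, q⟩ : Vt Z Q) = ⟨z, r * q⟩ := rfl

section

variable {X I : Type} {A : I → Type} [∀ i, Group (A i)] (R : Subgroup (FrP X A)) [R.Normal]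

/-- the class of an element -/
abbrev cl (g : FrP X A) : FrP X A ⧸ R := QuotientGroup.mk g

/-- the free group on the edges -/
abbrev FE : Type := FreeGroup (Vt (X ⊕ I) (FrP X A ⧸ R))

/-- the generator of an edge -/
abbrev ed (z : X ⊕ I) (q : FrP X A ⧸ R) : FE R := FreeGroup.of ⟨z, q⟩

/-- the action on the free group on the edges -/
noncomputable abbrev pe : (FrP X A ⧸ R) →* MulAut (FE R) := permAut _ _

theorem pe_ed (r : FrP X A ⧸ R) (z : X ⊕ I) (q : FrP X A ⧸ R) :
    pe R r (ed R z q) = ed R z (r * q) := FreeGroup.map.of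

/-- the element of `A i` in the free product -/
def ia (i : I) : A i →* FrP X A := (Coprod.inr).comp CoprodI.of

/-- the free generator in the free product -/
def ix (x : X) : FrP X A := Coprod.inl (FreeGroup.of x)

/-- **the embedding** -/
noncomputable def emb : FrP X A →* FE R ⋊[pe R] (FrP X A ⧸ R) :=
  Coprod.lift (FreeGroup.lift fun x => ⟨ed R (Sum.inl x) 1, cl R (ix x)⟩)
    (CoprodI.lift fun i =>
      { toFun := fun a => ⟨ed R (Sum.inr i) 1 * (ed R (Sum.inr i) (cl R (ia i a)))⁻¹,
          cl R (ia i a)⟩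
        map_one' := by
          apply SemidirectProduct.ext
          · rw [map_one]
            exact mul_inv_cancel _
          · rw [map_one]
            rfl
        map_mul' := by
          intro a b
          have h1 : cl R (ia i (a * b)) = cl R (ia i a) * cl R (ia i b) := by rw [map_mul]; rfl
          apply SemidirectProduct.ext
          · rw [SemidirectProduct.mul_left]
            change ed R (Sum.inr i) 1 * (ed R (Sum.inr i) (cl R (ia i (a * b))))⁻¹ =
              ed R (Sum.inr i) 1 * (ed R (Sum.inr i) (cl R (ia i a)))⁻¹ *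
              pe R (cl R (ia i a)) (ed R (Sum.inr i) 1 * (ed R (Sum.inr i) (cl R (ia i b)))⁻¹)
            rw [h1, MulEquiv.map_mul, map_inv, pe_ed, pe_ed, mul_one, mul_assoc,
              inv_mul_cancel_left]
          · exact h1 })

theorem emb_ix (x : X) : emb R (ix x) = ⟨ed R (Sum.inl x) 1, cl R (ix x)⟩ := by
  have h1 : emb R (ix x) = emb R (Coprod.inl (FreeGroup.of x)) := rfl
  rw [h1, emb, Coprod.lift_apply_inl, FreeGroup.lift_apply_of]

theorem emb_ia (i : I) (a : A i) : emb R (ia i a) =
    ⟨ed R (Sum.inr i) 1 * (ed R (Sum.inr i) (cl R (ia i a)))⁻¹, cl R (ia i a)⟩ := by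
  have h1 : emb R (ia i a) = emb R (Coprod.inr (CoprodI.of a)) := rfl
  rw [h1, emb, Coprod.lift_apply_inr, CoprodI.lift_of]
  rfl

/-- induction on the elements of the free product -/
theorem ind {motive : FrP X A → Prop} (hx : ∀ x, motive (ix x)) (ha : ∀ i a, motive (ia i a))
    (h1 : motive 1) (hinv : ∀ g, motive g → motive g⁻¹)
    (hmul : ∀ g h, motive g → motive h → motive (g * h)) (g : FrP X A) : motive g := by
  induction g using Coprod.induction_on with
  | inl m =>
    induction m using FreeGroup.induction_on with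
    | C1 => rw [map_one]; exact h1
    | of x => exact hx x
    | inv_of x _ => rw [map_inv]; exact hinv _ (hx x)
    | mul x y h h' => rw [map_mul]; exact hmul _ _ h h'
  | inr n =>
    induction n using CoprodI.induction_on with
    | one => rw [map_one]; exact h1
    | of i a => exact ha i a
    | mul x y h h' => rw [map_mul]; exact hmul _ _ h h'
  | mul x y h h' => exact hmul _ _ h h'

theorem emb_right (g : FrP X A) : (emb R g).right = cl R g := by
  induction g using ind with
  | hx x => rw [emb_ix]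
  | ha i a => rw [emb_ia]
  | h1 => rw [map_one]; rfl
  | hinv g h => rw [map_inv, SemidirectProduct.inv_right, h]; rfl
  | hmul g k h h' => rw [map_mul, SemidirectProduct.mul_right, h, h']; rfl

/-- section of the projection -/
noncomputable def sq (q : FrP X A ⧸ R) : FrP X A := Quotient.out q

theorem cl_sq (q : FrP X A ⧸ R) : cl R (sq R q) = q := QuotientGroup.out_eq' q

/-- the image of `A i` in the quotient -/
def im (i : I) : Subgroup (FrP X A ⧸ R) := ((QuotientGroup.mk' R).comp (ia i)).range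

theorem exists_tau (i : I) (q : FrP X A ⧸ R) : ∃ a : A i,
    cl R (ia i a) = q⁻¹ * ((q : (FrP X A ⧸ R) ⧸ im R i)).out := by
  have h1 : q⁻¹ * ((q : (FrP X A ⧸ R) ⧸ im R i)).out ∈ im R i := by
    rw [← QuotientGroup.eq]
    exact (QuotientGroup.out_eq' _).symm
  obtain ⟨a, ha⟩ := h1
  exact ⟨a, ha⟩

/-- the element which moves `q` to the chosen representative -/
noncomputable def ta (i : I) (q : FrP X A ⧸ R) : A i := (exists_tau R i q).choose

theorem ta_spec (i : I) (q : FrP X A ⧸ R) :
    cl R (ia i (ta R i q)) = q⁻¹ * ((q : (FrP X A ⧸ R) ⧸ im R i)).out :=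
  (exists_tau R i q).choose_spec

theorem q_mul_ta (i : I) (q : FrP X A ⧸ R) :
    q * cl R (ia i (ta R i q)) = ((q : (FrP X A ⧸ R) ⧸ im R i)).out := by
  rw [ta_spec, mul_inv_cancel_left]

theorem mk_mul_ia (i : I) (q : FrP X A ⧸ R) (a : A i) :
    ((q * cl R (ia i a) : FrP X A ⧸ R) : (FrP X A ⧸ R) ⧸ im R i) = q := by
  rw [eq_comm, QuotientGroup.eq, inv_mul_cancel_left]
  exact ⟨a, rfl⟩

theorem ta_mul (hA : ∀ i (a : A i), ia i a ∈ R → a = 1) (i : I) (q : FrP X A ⧸ R) (a : A i) :
    ta R i q = a * ta R i (q * cl R (ia i a)) := by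
  have h1 := q_mul_ta R i q
  have h2 := q_mul_ta R i (q * cl R (ia i a))
  rw [mk_mul_ia] at h2
  rw [← h1, mul_assoc] at h2
  have h3 : cl R (ia i a) * cl R (ia i (ta R i (q * cl R (ia i a)))) =
      cl R (ia i (ta R i q)) := mul_left_cancel h2
  have h4 : cl R (ia i (a * ta R i (q * cl R (ia i a)))) = cl R (ia i (ta R i q)) := by
    rw [map_mul]
    exact h3
  have h5 : (a * ta R i (q * cl R (ia i a)))⁻¹ * ta R i q = 1 := by
    apply hA i
    rw [map_mul, map_inv]
    exact QuotientGroup.eq.1 h4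
  exact (eq_of_inv_mul_eq_one h5).symm

/-- the edge elements of `R` -/
noncomputable def re : Vt (X ⊕ I) (FrP X A ⧸ R) → R
  | ⟨Sum.inl x, q⟩ => ⟨sq R q * ix x * (sq R (q * cl R (ix x)))⁻¹, by
      rw [← QuotientGroup.eq_one_iff]
      change cl R (sq R q) * cl R (ix x) * (cl R (sq R (q * cl R (ix x))))⁻¹ = 1
      rw [cl_sq, cl_sq, mul_inv_cancel]⟩
  | ⟨Sum.inr i, q⟩ => ⟨sq R q * ia i (ta R i q) * (sq R (q * cl R (ia i (ta R i q))))⁻¹, by
      rw [← QuotientGroup.eq_one_iff]
      change cl R (sq R q) * cl R (ia i (ta R i q)) *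
        (cl R (sq R (q * cl R (ia i (ta R i q)))))⁻¹ = 1
      rw [cl_sq, cl_sq, mul_inv_cancel]⟩

/-- the retraction -/
noncomputable def rho : FE R →* R := FreeGroup.lift (re R)

theorem rho_ed_inl (x : X) (q : FrP X A ⧸ R) : (rho R (ed R (Sum.inl x) q) : FrP X A) =
    sq R q * ix x * (sq R (q * cl R (ix x)))⁻¹ := by
  rw [rho, FreeGroup.lift_apply_of]
  rfl

theorem rho_ed_inr (i : I) (q : FrP X A ⧸ R) : (rho R (ed R (Sum.inr i) q) : FrP X A) =
    sq R q * ia i (ta R i q) * (sq R (q * cl R (ia i (ta R i q))))⁻¹ := by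
  rw [rho, FreeGroup.lift_apply_of]
  rfl

theorem key (hA : ∀ i (a : A i), ia i a ∈ R → a = 1) (g : FrP X A) :
    ∀ q, (rho R (pe R q (emb R g).left) : FrP X A) = sq R q * g * (sq R (q * cl R g))⁻¹ := by
  induction g using ind with
  | hx x =>
    intro q
    rw [emb_ix]
    change (rho R (pe R q (ed R (Sum.inl x) 1)) : FrP X A) = _
    rw [pe_ed, mul_one, rho_ed_inl]
  | ha i a =>
    intro q
    rw [emb_ia]
    change (rho R (pe R q (ed R (Sum.inr i) 1 * (ed R (Sum.inr i) (cl R (ia i a)))⁻¹)) :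
      FrP X A) = _
    rw [map_mul, map_inv, pe_ed, pe_ed, mul_one, map_mul, map_inv, Subgroup.coe_mul,
      Subgroup.coe_inv, rho_ed_inr, rho_ed_inr]
    have h1 : q * cl R (ia i a) * cl R (ia i (ta R i (q * cl R (ia i a)))) =
        q * cl R (ia i (ta R i q)) := by
      rw [q_mul_ta, q_mul_ta, mk_mul_ia]
    rw [h1]
    conv_lhs => rw [show (ia i (ta R i q) : FrP X A) = ia i a * ia i (ta R i (q * cl R (ia i a)))
      from by rw [← map_mul, ← ta_mul R hA i q a]]
    group
  | h1 =>
    intro q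
    rw [map_one]
    change (rho R (pe R q 1) : FrP X A) = sq R q * 1 * (sq R (q * cl R 1))⁻¹
    rw [map_one, map_one, mul_one]
    change (1 : FrP X A) = sq R q * (sq R (q * 1))⁻¹
    rw [mul_one, mul_inv_cancel]
  | hinv g h =>
    intro q
    have h1 := h (q * (cl R g)⁻¹)
    have h2 : (emb R (g * g⁻¹)).left = 1 := by rw [mul_inv_cancel, map_one]; rfl
    rw [map_mul, SemidirectProduct.mul_left, emb_right] at h2
    have h3 := congrArg (fun e => (rho R (pe R (q * (cl R g)⁻¹) e) : FrP X A)) h2
    have h4 : pe R (q * (cl R g)⁻¹) (pe R (cl R g) (emb R g⁻¹).left) =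
        pe R q (emb R g⁻¹).left := by
      rw [← MulAut.mul_apply, ← map_mul, inv_mul_cancel_right]
    simp only [MulEquiv.map_mul, map_mul (rho R), map_one, Subgroup.coe_mul,
      Subgroup.coe_one] at h3
    rw [h4, h1, inv_mul_cancel_right] at h3
    have h5 : cl R g⁻¹ = (cl R g)⁻¹ := rfl
    rw [h5, ← mul_right_inj (sq R (q * (cl R g)⁻¹) * g * (sq R q)⁻¹), h3]
    group
  | hmul g k h h' =>
    intro q
    rw [map_mul, SemidirectProduct.mul_left, emb_right, map_mul, map_mul, Subgroup.coe_mul, h q]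
    have h1 : pe R q (pe R (cl R g) (emb R k).left) = pe R (q * cl R g) (emb R k).left := by
      rw [map_mul]; rfl
    rw [h1, h' (q * cl R g)]
    have h2 : q * cl R g * cl R k = q * cl R (g * k) := by rw [mul_assoc]; rfl
    rw [h2]
    group

variable (W : Set (FreeGroup ℕ))

/-- the embedding with relatively free kernel -/
noncomputable def embW : FrP X A →*
    RF W (Vt (X ⊕ I) (FrP X A ⧸ R)) ⋊[rAct W (FrP X A ⧸ R) (Vt (X ⊕ I) (FrP X A ⧸ R))]
      (FrP X A ⧸ R) :=
  (SemidirectProduct.map (QuotientGroup.mk' _) (MonoidHom.id _) (by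
    intro q
    apply MonoidHom.ext
    intro x
    rfl)).comp (emb R)

theorem embW_left (g : FrP X A) : (embW R W g).left = QuotientGroup.mk (emb R g).left := rfl

theorem embW_right (g : FrP X A) : (embW R W g).right = cl R g := emb_right R g

/-- the part of the embedding on the kernel -/
noncomputable def eps : R →* FE R where
  toFun r := (emb R r).left
  map_one' := by
    rw [Subgroup.coe_one, map_one]
    rfl
  map_mul' r t := by
    rw [Subgroup.coe_mul, map_mul, SemidirectProduct.mul_left, emb_right]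
    have h1 : cl R (r : FrP X A) = 1 := (QuotientGroup.eq_one_iff _).2 r.2
    rw [h1, map_one]
    rfl

theorem ker_embW (hA : ∀ i (a : A i), ia i a ∈ R → a = 1) : (embW R W).ker = verbIn W R := by
  ext g
  rw [MonoidHom.mem_ker]
  constructor
  · intro h
    have h1 : cl R g = 1 := by rw [← embW_right R W, h]; rfl
    have hg : g ∈ R := (QuotientGroup.eq_one_iff _).1 h1
    have h2 : (QuotientGroup.mk (emb R g).left : RF W (Vt (X ⊕ I) (FrP X A ⧸ R))) = 1 := by
      rw [← embW_left R W, h]; rfl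
    have h3 : (emb R g).left ∈ verb W (FE R) := (QuotientGroup.eq_one_iff _).1 h2
    have h4 := verb_map W (rho R) h3
    have h5 := key R hA g 1
    rw [h1, mul_one, map_one] at h5
    have h6 : sq R 1 ∈ R := by
      rw [← QuotientGroup.eq_one_iff]
      exact cl_sq R 1
    refine (mem_verbIn W).2 ⟨hg, ?_⟩
    have h7 : (⟨g, hg⟩ : R) = (⟨sq R 1, h6⟩ : R)⁻¹ * rho R (emb R g).left *
        ((⟨sq R 1, h6⟩ : R)⁻¹)⁻¹ := by
      apply Subtype.ext
      change g = (sq R 1)⁻¹ * (rho R (emb R g).left : FrP X A) * ((sq R 1)⁻¹)⁻¹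
      have h8 : (rho R (emb R g).left : FrP X A) = sq R 1 * g * (sq R 1)⁻¹ := h5
      rw [h8]
      group
    rw [h7]
    exact Subgroup.Normal.conj_mem inferInstance _ h4 _
  · intro h
    obtain ⟨hg, h1⟩ := (mem_verbIn W).1 h
    have h2 := verb_map W (eps R) h1
    apply SemidirectProduct.ext
    · rw [embW_left]
      exact (QuotientGroup.eq_one_iff _).2 h2
    · rw [embW_right]
      exact (QuotientGroup.eq_one_iff _).2 hg

/-- **quotients of free products by verbal subgroups of normal subgroups** -/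
theorem c_quot {C : ∀ (G : Type) [Group G], Prop} (hC : ClosedE C) (h : C (RF W ℕ))
    (hA : ∀ i (a : A i), ia i a ∈ R → a = 1) (hQ : C (FrP X A ⧸ R)) :
    C (FrP X A ⧸ verbIn W R) := by
  have h1 : C (FrP X A ⧸ (embW R W).ker) :=
    hC.base.of_injective _ _ (QuotientGroup.kerLift (embW R W))
      (QuotientGroup.kerLift_injective _) (c_rsemi W _ _ hC h hQ)
  exact Pool.Agent.Y812.SS.C_equiv hC.base
    (QuotientGroup.quotientMulEquivOfEq (ker_embW R W hA)).symm h1

end

/-- quotients of free groups by verbal subgroups of normal subgroups -/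
theorem c_quot_free (W : Set (FreeGroup ℕ)) {C : ∀ (G : Type) [Group G], Prop} (hC : ClosedE C)
    (h : C (RF W ℕ)) (X : Type) (R : Subgroup (FreeGroup X)) [R.Normal]
    (hQ : C (FreeGroup X ⧸ R)) : C (FreeGroup X ⧸ verbIn W R) := by
  let A : Empty → Type := fun _ => Multiplicative ℤ
  let p : FrP X A →* FreeGroup X := Coprod.lift (MonoidHom.id _) (CoprodI.lift fun i => i.elim)
  have hp : ∀ x, p (Coprod.inl x) = x := fun x => rfl
  let R' : Subgroup (FrP X A) := R.comap p
  have hQ' : C (FrP X A ⧸ R') := by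
    have h1 : C (FrP X A ⧸ ((QuotientGroup.mk' R).comp p).ker) :=
      hC.base.of_injective _ _ (QuotientGroup.kerLift ((QuotientGroup.mk' R).comp p))
        (QuotientGroup.kerLift_injective _) hQ
    have h2 : ((QuotientGroup.mk' R).comp p).ker = R' := by
      ext g
      rw [MonoidHom.mem_ker]
      exact QuotientGroup.eq_one_iff _
    exact Pool.Agent.Y812.SS.C_equiv hC.base
      (QuotientGroup.quotientMulEquivOfEq h2).symm h1
  have h3 := c_quot R' W hC h (fun i => i.elim) hQ'
  have h4 : verbIn W R ≤ (verbIn W R').comap (Coprod.inl : FreeGroup X →* FrP X A) := by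
    rintro _ ⟨r, hr, rfl⟩
    have h5 := verb_map W (((Coprod.inl : FreeGroup X →* FrP X A).comp R.subtype).codRestrict R'
      (fun r => r.2)) hr
    exact ⟨_, h5, rfl⟩
  refine hC.base.of_injective _ _ (QuotientGroup.map _ _ (Coprod.inl : FreeGroup X →* FrP X A) h4)
    ?_ h3
  rw [injective_iff_map_eq_one]
  intro x hx
  obtain ⟨y, rfl⟩ := QuotientGroup.mk_surjective x
  have h6 : (Coprod.inl y : FrP X A) ∈ verbIn W R' := (QuotientGroup.eq_one_iff _).1 hx
  obtain ⟨h7, h8⟩ := (mem_verbIn W).1 h6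
  have h9 := verb_map W ((p.comp R'.subtype).codRestrict R (fun r => r.2)) h8
  apply (QuotientGroup.eq_one_iff _).2
  exact ⟨_, h9, rfl⟩

/-- relatively free groups of product varieties -/
theorem c_prod (U W : Set (FreeGroup ℕ)) {C : ∀ (G : Type) [Group G], Prop} (hC : ClosedE C)
    (hU : C (RF U ℕ)) (hW : C (RF W ℕ)) (X : Type) :
    C (FreeGroup X ⧸ verbIn W (verb U (FreeGroup X))) :=
  c_quot_free W hC hW X _ (c_RF U hC.base hU X)

end Pool.Agent.X265.Ver
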